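import Pool.Agent.R461.TB.Bessel

/-! Bessel's inequality for sequences close to mean values: sums of squares, counting, subsequences. -/

set_option autoImplicit false

namespace Pool.Agent.R461.BC

open Complex Filter Topology NumberField IsDedekindDomain Polynomial
  Pool.Agent.W401.Cheb Pool.Agent.W540.BE Pool.Agent.W353.L1 Pool.Agent.W353.AT
open Pool.Agent.W353.SP
open Pool.Agent.R461.TB (bessel)

/-- the consequences of the inequality for the sums of squares -/
theorem conseq {β : Type} {e : β → ℝ} (he : ∀ b, 0 < e b) {x : β → ℕ → ℝ} {r : ℝ}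
    (h : ∀ (S : Finset β) (η : ℝ), 0 < η → ∀ᶠ T in atTop, ∑ b ∈ S, x b T ^ 2 / e b ≤ r ^ 2 + η) :
    (∀ δ : ℝ, 0 < δ → {b : β | ∀ᶠ T in atTop, δ * √(e b) ≤ |x b T|}.Finite ∧
      ({b : β | ∀ᶠ T in atTop, δ * √(e b) ≤ |x b T|}.ncard : ℝ) ≤ r ^ 2 / δ ^ 2) ∧
    (Countable β → ∀ T : ℕ → ℕ, Tendsto T atTop atTop → ∃ φ : ℕ → ℕ, StrictMono φ ∧
      ∃ y : β → ℝ, (∀ b, Tendsto (fun j => x b (T (φ j))) atTop (𝓝 (y b))) ∧
        Summable (fun b => y b ^ 2 / e b) ∧ ∑' b, y b ^ 2 / e b ≤ r ^ 2) ∧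
    (r = 0 → ∀ b, Tendsto (x b) atTop (𝓝 0)) := by
  classical
  refine ⟨fun δ hδ => ?_, fun hβ T hT => ?_, fun hr b => ?_⟩
  · set P : Set β := {b : β | ∀ᶠ T in atTop, δ * √(e b) ≤ |x b T|} with hP
    have key : ∀ S : Finset β, (S : Set β) ⊆ P → (S.card : ℝ) * δ ^ 2 ≤ r ^ 2 := by
      intro S hS
      refine le_of_forall_pos_le_add fun η hη => ?_
      have h1 : ∀ᶠ T in atTop, ∀ b ∈ S, δ * √(e b) ≤ |x b T| := by
        rw [Filter.eventually_all_finset]
        intro b hb
        exact hS hb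
      obtain ⟨T, h2, h3⟩ := (h1.and (h S η hη)).exists
      refine le_trans ?_ h3
      have h4 : (S.card : ℝ) * δ ^ 2 = ∑ b ∈ S, δ ^ 2 := by
        rw [Finset.sum_const, nsmul_eq_mul]
      rw [h4]
      refine Finset.sum_le_sum fun b hb => ?_
      rw [le_div_iff₀ (he b)]
      have h5 := pow_le_pow_left₀ (by positivity) (h2 b hb) 2
      rwa [mul_pow, Real.sq_sqrt (he b).le, sq_abs] at h5
    have hfin : P.Finite := by
      by_contra hinf
      have hinf' : P.Infinite := hinf
      obtain ⟨m, hm⟩ := exists_nat_gt (r ^ 2 / δ ^ 2)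
      obtain ⟨S, hS, hcard⟩ := hinf'.exists_subset_card_eq m
      have h1 := key S hS
      rw [hcard] at h1
      rw [div_lt_iff₀ (by positivity)] at hm
      linarith
    refine ⟨hfin, ?_⟩
    have h1 := key hfin.toFinset (by rw [Set.Finite.coe_toFinset])
    rw [← Set.ncard_eq_toFinset_card P hfin] at h1
    rw [le_div_iff₀ (by positivity)]
    exact h1
  · have hbd : ∀ b, ∃ C : ℝ, ∀ᶠ j in atTop, |x b (T j)| ≤ C := by
      intro b
      refine ⟨√((r ^ 2 + 1) * e b), ?_⟩
      filter_upwards [hT.eventually (h {b} 1 one_pos)] with j hj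
      rw [Finset.sum_singleton, div_le_iff₀ (he b)] at hj
      exact Real.abs_le_sqrt hj
    obtain ⟨φ, hφ, y, hy⟩ := diag (fun b j => x b (T j)) hbd
    have hTφ : Tendsto (fun j => T (φ j)) atTop atTop := hT.comp hφ.tendsto_atTop
    have hsum : ∀ S : Finset β, ∑ b ∈ S, y b ^ 2 / e b ≤ r ^ 2 := by
      intro S
      refine le_of_forall_pos_le_add fun η hη => ?_
      refine le_of_tendsto (tendsto_finsetSum S fun b _ => ((hy b).pow 2).div_const (e b)) ?_
      exact hTφ.eventually (h S η hη)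
    have hs : Summable fun b => y b ^ 2 / e b :=
      summable_of_sum_le (fun b => div_nonneg (sq_nonneg _) (he b).le) hsum
    exact ⟨φ, hφ, y, hy, hs, hs.tsum_le_of_sum_le hsum⟩
  · rw [Metric.tendsto_nhds]
    intro ε hε
    have hη : 0 < ε ^ 2 / (2 * e b) := by
      have := he b
      positivity
    filter_upwards [h {b} _ hη] with T hT
    rw [Finset.sum_singleton, hr, div_le_iff₀ (he b)] at hT
    have h1 : (0 ^ 2 + ε ^ 2 / (2 * e b)) * e b = ε ^ 2 / 2 := by
      have := (he b).ne'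
      field_simp
      ring
    rw [h1] at hT
    rw [Real.dist_eq, sub_zero]
    have h2 : |x b T| ^ 2 < ε ^ 2 := by
      rw [sq_abs]
      have : 0 < ε ^ 2 := by positivity
      linarith
    exact lt_of_pow_lt_pow_left₀ 2 hε.le h2

section
variable {K : Type} [Field K] [NumberField K]

theorem EN_smul' (n : ℕ) (c : ℝ) (f : HeightOneSpectrum (𝓞 K) → ℝ) :
    EN K n (fun v => c * f v) = c * EN K n f := (mnN K).smul c f n

/-- **Bessel's inequality for sequences close to mean values.** -/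
theorem bessel_seq {β : Type} {u : β → HeightOneSpectrum (𝓞 K) → ℝ} (hu : ∀ b, Bd (u b))
    {e : β → ℝ} (he : ∀ b, 0 < e b)
    (hdiag : ∀ b, Tendsto (fun T => EN K T fun v => u b v * u b v) atTop (𝓝 (e b)))
    (hoff : ∀ b b', b ≠ b' → Tendsto (fun T => EN K T fun v => u b v * u b' v) atTop (𝓝 0))
    {w : HeightOneSpectrum (𝓞 K) → ℝ} {r : ℝ} (hw : ∀ v, |w v| ≤ |r|) {x : β → ℕ → ℝ}
    (hx : ∀ b, Tendsto (fun T => x b T - EN K T fun v => w v * u b v) atTop (𝓝 0))
    (S : Finset β) {η : ℝ} (hη : 0 < η) :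
    ∀ᶠ T in atTop, ∑ b ∈ S, x b T ^ 2 / e b ≤ r ^ 2 + η := by
  classical
  have hse : ∀ b, 0 < √(e b) := fun b => Real.sqrt_pos.2 (he b)
  have hwb : Bd w := ⟨|r|, hw⟩
  have hB := bessel (K := K) S (fun b v => (√(e b))⁻¹ * u b v)
    (fun b => by
      obtain ⟨B, hB⟩ := hu b
      exact ⟨(√(e b))⁻¹ * B, fun v => by
        rw [abs_mul, abs_of_pos (inv_pos.2 (hse b))]
        exact mul_le_mul_of_nonneg_left (hB v) (inv_pos.2 (hse b)).le⟩)
    hwb (e := 1) one_pos
    (fun b b' hb => by
      have h1 := (hoff b b' hb).const_mul ((√(e b))⁻¹ * (√(e b'))⁻¹)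
      rw [mul_zero] at h1
      refine h1.congr fun T => ?_
      rw [← EN_smul']
      congr 1
      funext v
      ring)
    (fun b η' hη' => by
      have h1 := (hdiag b).const_mul ((√(e b))⁻¹ * (√(e b))⁻¹)
      have h2 : (√(e b))⁻¹ * (√(e b))⁻¹ * e b = 1 := by
        rw [← mul_inv, Real.mul_self_sqrt (he b).le]
        exact inv_mul_cancel₀ (he b).ne'
      rw [h2] at h1
      filter_upwards [h1.eventually_le_const (show 1 < 1 + η' by linarith)] with T hT
      refine le_trans (le_of_eq ?_) hT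
      rw [← EN_smul']
      congr 1
      funext v
      ring)
    (show 0 < η / 3 by positivity)
  have h1 : Tendsto (fun T => r ^ 2 * EN K T fun _ => 1) atTop (𝓝 (r ^ 2)) := by
    have := (mnN K).one.const_mul (r ^ 2)
    rwa [mul_one] at this
  have hmono := (mnN K).mono (fun v => w v * w v) (fun _ => r ^ 2 * 1) (hwb.mul hwb)
    (Bd.const _) (fun v => by
      rw [mul_one, ← sq, ← sq_abs, ← sq_abs r]
      exact pow_le_pow_left₀ (abs_nonneg _) (hw v) 2)
  have hsq : Tendsto (fun T => ∑ b ∈ S, (x b T ^ 2 / e b -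
      (EN K T fun v => w v * ((√(e b))⁻¹ * u b v)) ^ 2)) atTop (𝓝 0) := by
    have h2 : ∀ b ∈ S, Tendsto (fun T => x b T ^ 2 / e b -
        (EN K T fun v => w v * ((√(e b))⁻¹ * u b v)) ^ 2) atTop (𝓝 0) := by
      intro b _
      have h3 := hx b
      set y : ℕ → ℝ := fun T => EN K T fun v => w v * u b v with hy
      have h4 : ∀ T, (EN K T fun v => w v * ((√(e b))⁻¹ * u b v)) ^ 2 = y T ^ 2 / e b := by
        intro T
        have h5 : (EN K T fun v => w v * ((√(e b))⁻¹ * u b v)) = (√(e b))⁻¹ * y T := by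
          rw [hy]
          simp only
          rw [← EN_smul']
          congr 1
          funext v
          ring
        rw [h5, mul_pow, inv_pow, Real.sq_sqrt (he b).le]
        ring
      obtain ⟨B, hB⟩ := hwb.mul (hu b)
      have h6 : ∀ᶠ T in atTop, |y T| ≤ 2 * |B| := (mnN K).bound hB
      have h7 : Tendsto (fun T => (x b T - y T) * (x b T - y T) + 2 * ((x b T - y T) * y T)) atTop
          (𝓝 0) := by
        have h8 : Tendsto (fun T => (x b T - y T) * y T) atTop (𝓝 0) := by
          refine squeeze_zero_norm' (a := fun T => |x b T - y T| * (2 * |B|)) ?_ ?_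
          · filter_upwards [h6] with T hT
            rw [Real.norm_eq_abs, abs_mul]
            exact mul_le_mul_of_nonneg_left hT (abs_nonneg _)
          · have := h3.abs.mul_const (2 * |B|)
            rwa [abs_zero, zero_mul] at this
        have h9 := (h3.mul h3).add (h8.const_mul 2)
        rw [mul_zero, mul_zero, add_zero] at h9
        exact h9
      have h10 := h7.div_const (e b)
      rw [zero_div] at h10
      refine h10.congr fun T => ?_
      rw [h4]
      ring
    have h3 := tendsto_finsetSum S h2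
    rwa [Finset.sum_const_zero] at h3
  filter_upwards [hB, hmono, h1.eventually_le_const (show r ^ 2 < r ^ 2 + η / 3 by linarith),
    hsq.eventually_le_const (show (0 : ℝ) < η / 3 by positivity)] with T g1 g2 g3 g4
  rw [Finset.sum_sub_distrib] at g4
  have g5 : (EN K T fun _ => r ^ 2 * 1) = r ^ 2 * EN K T fun _ => 1 := EN_smul' T _ _
  rw [g5] at g2
  linarith

end

end Pool.Agent.R461.BC
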