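import Pool.Agent.W353.FB.Defs

/-!
# Base changes of a fibration to the products with the members of a family: definitions

`K` is a number field.  `Fibration`, `IsTrace`, `LocalValue`, `nagaoValue`, `ValueAt`, `IsSystem` and
`average` are defined in `Pool.Agent.W353.FB.Defs`.
-/

set_option autoImplicit false

namespace Pool.Agent.R461.BC

open NumberField IsDedekindDomain Filter Topology
open Pool.Agent.W353.FB (Fibration LocalValue IsTrace ValueAt average)

/-- A geometrically connected smooth projective variety `Y` of dimension `m ≥ 1` over `K`, given by an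
open part, the set of the points `t` with `g(t) = 0` for the polynomials `g` in `eq` and `h(t) ≠ 0`.
Outside the finite set `R` of primes, `a v` is the trace of the Frobenius at `v` on `H¹(Y)`, a sum of
`N = b_1(Y)` complex numbers of absolute value `q_v^{1/2}`, and the number of the points of the open
part over the residue field is `q_v^m - q_v^{m-1} a_v`, up to an error of absolute value at most
`c q_v^{m-1}`.  (This holds by the theorems of Deligne and Poincaré duality.) -/
structure Base (K : Type) [Field K] [NumberField K] where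
  l : ℕ
  eq : Set (MvPolynomial (Fin l) (𝓞 K))
  h : MvPolynomial (Fin l) (𝓞 K)
  m : ℕ
  N : ℕ
  R : Finset (HeightOneSpectrum (𝓞 K))
  a : HeightOneSpectrum (𝓞 K) → ℝ
  c : ℝ
  one_le : 1 ≤ m
  weil : ∀ v, v ∉ R → ∃ γ : Fin N → ℂ,
    (∀ j, ‖γ j‖ = √(Ideal.absNorm v.asIdeal : ℝ)) ∧ (a v : ℂ) = ∑ j, γ j
  count : ∀ v, v ∉ R → ∀ (κ : Type) [Field κ] (φ : 𝓞 K →+* κ), RingHom.ker φ = v.asIdeal →
    Nat.card κ = Ideal.absNorm v.asIdeal →
    |({t : Fin l → κ | (∀ g ∈ eq, MvPolynomial.eval₂ φ t g = 0) ∧
        MvPolynomial.eval₂ φ t h ≠ 0}.ncard : ℝ) -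
      ((Ideal.absNorm v.asIdeal : ℝ) ^ m - (Ideal.absNorm v.asIdeal : ℝ) ^ (m - 1) * a v)| ≤
      c * (Ideal.absNorm v.asIdeal : ℝ) ^ (m - 1)

section
variable {K : Type} [Field K] [NumberField K]

/-- The base change of the fibration `𝒳 → 𝒴` to `𝒴 × Y`: the base is the product of the given open parts
of `𝒴` and `Y`, and the fibre over `(t, y)` is the fibre of `f` over `t`. -/
noncomputable def pull (f : Fibration K) (Y : Base K) : Fibration K where
  l := f.l + Y.l
  eqBase := (fun g => MvPolynomial.rename (Fin.castAdd Y.l) g) '' f.eqBase ∪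
    (fun g => MvPolynomial.rename (Fin.natAdd f.l) g) '' Y.eq
  h := MvPolynomial.rename (Fin.castAdd Y.l) f.h * MvPolynomial.rename (Fin.natAdd f.l) Y.h
  m := f.m + Y.m
  n := f.n
  eqFibre := (fun g => MvPolynomial.map
    (MvPolynomial.rename (R := 𝓞 K) (Fin.castAdd Y.l)).toRingHom g) '' f.eqFibre
  r := f.r
  one_le := f.one_le

open Classical in
/-- The averages of `a_v(Y_b) a_v(Y_b') / q_v` tend to `0` for `b ≠ b'` and to `e b > 0` for `b = b'`.  This
is the conjecture for the fibration `Y_b × Y_b' → Y_b'` if `e b` is the rank of the endomorphism ring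
of the Albanese variety of `Y_b`, and there are no homomorphisms between those of different
members. -/
def IsFamily {β : Type} (Y : β → Base K) (e : β → ℝ) : Prop :=
  (∀ b, 0 < e b ∧ Tendsto (average (Y b).R fun v =>
    (Y b).a v * (Y b).a v / (Ideal.absNorm v.asIdeal : ℝ)) atTop (𝓝 (e b))) ∧
  ∀ b b', b ≠ b' → Tendsto (average ((Y b).R ∪ (Y b').R) fun v =>
    (Y b).a v * (Y b').a v / (Ideal.absNorm v.asIdeal : ℝ)) atTop (𝓝 0)

/-- `a` is the trace of the Frobenius on `H¹(B)`, for the projective variety `B` of dimension at most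
`g`. -/
def traceValue {k : ℕ} (B : Set (MvPolynomial (Fin k) (𝓞 K))) (g : ℕ) : LocalValue K :=
  fun _ _ φ a => IsTrace B g 1 φ a

/-- `r` is the dimension of the complement in `H¹(B)` of the sum of the `n b` copies of the `H¹(Y b)`:
outside a finite set of primes the trace of the Frobenius on `H¹(B)` is the sum of the `n b a_v(Y b)` and
of `r` complex numbers of absolute value `q_v^{1/2}`. -/
def Complement {k : ℕ} (B : Set (MvPolynomial (Fin k) (𝓞 K))) (g : ℕ) {β : Type} (Y : β → Base K)
    (n : β →₀ ℕ) (r : ℕ) : Prop :=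
  ∀ᶠ v in cofinite, ∃ (a : ℝ) (γ : Fin r → ℂ), ValueAt (traceValue B g) v a ∧
    (∀ j, ‖γ j‖ = √(Ideal.absNorm v.asIdeal : ℝ)) ∧
    (a : ℂ) = ∑ b ∈ n.support, ((n b : ℝ) * (Y b).a v : ℝ) + ∑ j, γ j

end

end Pool.Agent.R461.BC
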