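import Pool.Agent.W353.FB.Final
import Pool.Agent.R461.BC.Defs

/-! The fibre averages of the base change. -/

set_option autoImplicit false

namespace Pool.Agent.R461.BC

open Complex Filter Topology NumberField IsDedekindDomain Polynomial
  Pool.Agent.W401.Cheb Pool.Agent.W540.BE Pool.Agent.W353.L1 Pool.Agent.W353.AT
  Pool.Agent.W353.SP
open Pool.Agent.W353.FB

section
variable {K : Type} [Field K] [NumberField K]

/-- the points of the open part -/
def pts (Y : Base K) {κ : Type} [Field κ] (φ : 𝓞 K →+* κ) : Set (Fin Y.l → κ) :=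
  {t | (∀ g ∈ Y.eq, MvPolynomial.eval₂ φ t g = 0) ∧ MvPolynomial.eval₂ φ t Y.h ≠ 0}

theorem mem_pull (f : Fibration K) (Y : Base K) {κ : Type} [Field κ] (φ : 𝓞 K →+* κ)
    (t : Fin (f.l + Y.l) → κ) : t ∈ (pull f Y).points φ ↔
      (fun i => t (Fin.castAdd Y.l i)) ∈ f.points φ ∧ (fun i => t (Fin.natAdd f.l i)) ∈ pts Y φ := by
  have h1 : ∀ g : MvPolynomial (Fin f.l) (𝓞 K),
      MvPolynomial.eval₂ φ t (MvPolynomial.rename (Fin.castAdd Y.l) g) =
        MvPolynomial.eval₂ φ (fun i => t (Fin.castAdd Y.l i)) g := fun g =>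
    MvPolynomial.eval₂_rename φ (Fin.castAdd Y.l) t g
  have h2 : ∀ g : MvPolynomial (Fin Y.l) (𝓞 K),
      MvPolynomial.eval₂ φ t (MvPolynomial.rename (Fin.natAdd f.l) g) =
        MvPolynomial.eval₂ φ (fun i => t (Fin.natAdd f.l i)) g := fun g =>
    MvPolynomial.eval₂_rename φ (Fin.natAdd f.l) t g
  constructor
  · rintro ⟨g1, g2⟩
    have g3 : MvPolynomial.eval₂ φ t (MvPolynomial.rename (Fin.castAdd Y.l) f.h *
        MvPolynomial.rename (Fin.natAdd f.l) Y.h) ≠ 0 := g2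
    rw [MvPolynomial.eval₂_mul, h1, h2] at g3
    refine ⟨⟨fun g hg => ?_, left_ne_zero_of_mul g3⟩, fun g hg => ?_, right_ne_zero_of_mul g3⟩
    · rw [← h1]
      exact g1 _ (Or.inl ⟨g, hg, rfl⟩)
    · rw [← h2]
      exact g1 _ (Or.inr ⟨g, hg, rfl⟩)
  · rintro ⟨⟨g1, g2⟩, g3, g4⟩
    refine ⟨?_, ?_⟩
    · rintro _ (⟨g, hg, rfl⟩ | ⟨g, hg, rfl⟩)
      · exact (h1 g).trans (g1 g hg)
      · exact (h2 g).trans (g3 g hg)
    · change MvPolynomial.eval₂ φ t (MvPolynomial.rename (Fin.castAdd Y.l) f.h *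
        MvPolynomial.rename (Fin.natAdd f.l) Y.h) ≠ 0
      rw [MvPolynomial.eval₂_mul, h1, h2]
      exact mul_ne_zero g2 g4

theorem cone_map {R S : Type} [CommRing R] [CommRing S] (g : R →+* S) {n : ℕ}
    (X : Set (MvPolynomial (Fin n) R)) {κ : Type} [Field κ] (θ : S →+* κ) :
    cone ((fun p => MvPolynomial.map g p) '' X) θ = cone X (θ.comp g) := by
  unfold cone
  congr 1
  have : ∀ u : Fin n → κ, (∀ f ∈ (fun p => MvPolynomial.map g p) '' X,
      MvPolynomial.eval₂ θ u f = 0) ↔ ∀ f ∈ X, MvPolynomial.eval₂ (θ.comp g) u f = 0 := by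
    intro u
    constructor
    · intro h f hf
      rw [← MvPolynomial.eval₂_map]
      exact h _ ⟨f, hf, rfl⟩
    · rintro h _ ⟨f, hf, rfl⟩
      exact (MvPolynomial.eval₂_map g u θ f).trans (h f hf)
  simp only [this]

theorem isTrace_pull (f : Fibration K) (Y : Base K) {i : ℕ} {κ : Type} [Field κ]
    (φ : 𝓞 K →+* κ) (t : Fin (f.l + Y.l) → κ) (a : ℝ) :
    IsTrace f.eqFibre f.r i (MvPolynomial.eval₂Hom φ fun j => t (Fin.castAdd Y.l j)) a →
    IsTrace (pull f Y).eqFibre (pull f Y).r i (MvPolynomial.eval₂Hom φ t) a := by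
  rintro ⟨β, h1, h2, h3⟩
  refine ⟨β, h1, h2, fun κ' _ _ θ e hc => ?_⟩
  have h4 := h3 κ' θ e hc
  have h5 : cone (pull f Y).eqFibre (θ.comp (MvPolynomial.eval₂Hom φ t)) =
      cone f.eqFibre (θ.comp (MvPolynomial.eval₂Hom φ fun j => t (Fin.castAdd Y.l j))) := by
    have h6 := cone_map (MvPolynomial.rename (R := 𝓞 K) (Fin.castAdd Y.l)).toRingHom f.eqFibre
      (θ.comp (MvPolynomial.eval₂Hom φ t))
    refine h6.trans ?_
    congr 1
    refine RingHom.ext fun p => ?_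
    rw [RingHom.comp_apply, RingHom.comp_apply, RingHom.comp_apply]
    congr 1
    exact MvPolynomial.eval₂_rename φ (Fin.castAdd Y.l) t p
  rw [h5]
  exact h4

/-- sums over the points of the product -/
theorem sum_pull (f : Fibration K) (Y : Base K) {κ : Type} [Field κ] [Finite κ]
    (φ : 𝓞 K →+* κ) (a : (Fin f.l → κ) → ℝ) :
    ∑ᶠ t ∈ (pull f Y).points φ, a (fun i => t (Fin.castAdd Y.l i)) =
      ((pts Y φ).ncard : ℝ) * ∑ᶠ t ∈ f.points φ, a t := by
  classical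
  have : Fintype κ := Fintype.ofFinite κ
  have h1 : ∀ {N : ℕ} (s : Set (Fin N → κ)) (g : (Fin N → κ) → ℝ),
      ∑ᶠ t ∈ s, g t = ∑ t, if t ∈ s then g t else 0 := by
    intro N s g
    rw [finsum_mem_def, finsum_eq_sum_of_fintype]
    rfl
  have h2 : ((pts Y φ).ncard : ℝ) = ∑ t, if t ∈ pts Y φ then (1 : ℝ) else 0 := by
    rw [Finset.sum_boole, Set.ncard_eq_toFinset_card']
    congr 2
    ext t
    simp
  have h3 : ∑ᶠ t ∈ (pull f Y).points φ, a (fun i => t (Fin.castAdd Y.l i)) =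
      ∑ t : Fin (f.l + Y.l) → κ, if t ∈ (pull f Y).points φ then
        a (fun i => t (Fin.castAdd Y.l i)) else 0 :=
    h1 (N := f.l + Y.l) ((pull f Y).points φ) fun t => a (fun i => t (Fin.castAdd Y.l i))
  rw [h3, h1, h2, ← Equiv.sum_comp (Fin.appendEquiv f.l Y.l), Fintype.sum_prod_type,
    Finset.sum_mul_sum, Finset.sum_comm]
  refine Finset.sum_congr rfl fun y _ => Finset.sum_congr rfl fun t _ => ?_
  have h4 : (fun i => (Fin.appendEquiv f.l Y.l (t, y)) (Fin.castAdd Y.l i)) = t := by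
    funext i
    exact Fin.append_left t y i
  have h5 : (fun i => (Fin.appendEquiv f.l Y.l (t, y)) (Fin.natAdd f.l i)) = y := by
    funext i
    exact Fin.append_right t y i
  have h6 := mem_pull f Y φ (Fin.appendEquiv f.l Y.l (t, y))
  rw [h4, h5] at h6
  rw [h4]
  by_cases g1 : t ∈ f.points φ
  · by_cases g2 : y ∈ pts Y φ
    · rw [if_pos (h6.2 ⟨g1, g2⟩), if_pos g1, if_pos g2, one_mul]
    · rw [if_neg (fun h => g2 (h6.1 h).2), if_neg g2, zero_mul]
  · rw [if_neg (fun h => g1 (h6.1 h).1), if_neg g1, mul_zero]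

/-- the fibre average of the base change -/
theorem average_pull (f : Fibration K) (Y : Base K) {i : ℕ} {κ : Type} [Field κ] [Finite κ]
    {φ : 𝓞 K →+* κ} {A : ℝ} (h : f.IsAverage i φ A) :
    (pull f Y).IsAverage i φ (A * (((pts Y φ).ncard : ℝ) / (Nat.card κ : ℝ) ^ Y.m)) := by
  obtain ⟨a, h1, h2⟩ := h
  refine ⟨fun t => a fun i => t (Fin.castAdd Y.l i), fun t ht => ?_, ?_⟩
  · exact isTrace_pull f Y φ t _ (h1 _ ((mem_pull f Y φ t).1 ht).1)
  · rw [sum_pull, h2]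
    have h3 : (pull f Y).m = f.m + Y.m := rfl
    rw [h3, pow_add, mul_inv]
    ring

end

end Pool.Agent.R461.BC
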