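import Pool.Agent.R461.BC.Abs
import Pool.Agent.R461.BC.Pull

/-! Bessel's inequality for the base changes of a fibration. -/

set_option autoImplicit false

namespace Pool.Agent.R461.BC

open Complex Filter Topology NumberField IsDedekindDomain Polynomial
  Pool.Agent.W401.Cheb Pool.Agent.W540.BE Pool.Agent.W353.L1 Pool.Agent.W353.AT
  Pool.Agent.W353.SP
open Pool.Agent.W353.FB
open Pool.Agent.H126V.Taub (LA)
open Pool.Agent.W353.PV (one_lt_norm exists_ext)

section
variable {K : Type} [Field K] [NumberField K]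

/-- the absolute norm as a real number -/
noncomputable def qq (v : HeightOneSpectrum (𝓞 K)) : ℝ := (Ideal.absNorm v.asIdeal : ℝ)

theorem one_lt_qq (v : HeightOneSpectrum (𝓞 K)) : 1 < qq v := one_lt_norm v

theorem qq_pos (v : HeightOneSpectrum (𝓞 K)) : 0 < qq v := by
  have := one_lt_qq v
  linarith

theorem sqrt_pos (v : HeightOneSpectrum (𝓞 K)) : 0 < √(qq v) := Real.sqrt_pos.2 (qq_pos v)

theorem sqrt_mul_sqrt (v : HeightOneSpectrum (𝓞 K)) : √(qq v) * √(qq v) = qq v :=
  Real.mul_self_sqrt (qq_pos v).le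

theorem one_le_sqrt (v : HeightOneSpectrum (𝓞 K)) : 1 ≤ √(qq v) := by
  rw [Real.one_le_sqrt]
  exact (one_lt_qq v).le

/-- functions of size `q ^ (-1/2)` -/
theorem small_of {D : ℝ} (_ : 0 ≤ D) {η : ℝ} (hη : 0 < η) :
    ∀ᶠ v : HeightOneSpectrum (𝓞 K) in cofinite, D / √(qq v) ≤ η := by
  rw [Filter.eventually_cofinite]
  obtain ⟨X, hX⟩ := exists_nat_gt ((D / η) ^ 2)
  refine (upto K X).finite_toSet.subset fun v hv => ?_
  rw [Finset.mem_coe, mem_upto]
  by_contra hcon
  push Not at hcon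
  refine hv ?_
  rw [div_le_iff₀ (sqrt_pos v)]
  have h1 : (X : ℝ) < qq v := by
    unfold qq
    exact_mod_cast hcon
  have h2 : D / η ≤ √(qq v) := by
    refine Real.le_sqrt_of_sq_le ?_
    linarith
  rw [div_le_iff₀ hη] at h2
  linarith

theorem valueAt_self {P : LocalValue K} {v : HeightOneSpectrum (𝓞 K)} {z : ℝ}
    (h : ValueAt P v z) {κ : Type} [Field κ] (φ : 𝓞 K →+* κ) (hk : RingHom.ker φ = v.asIdeal)
    (hc : Nat.card κ = Ideal.absNorm v.asIdeal) : P κ φ z := by
  have h2 : ∀ ψ : 𝓞 K →+* κ, ψ = φ → P κ ψ z → P κ φ z := by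
    rintro _ rfl h
    exact h
  exact h2 _ (RingHom.ext fun x => by
    rw [RingHom.comp_apply]
    congr 1) (h κ φ hk hc)

/-- the local estimate -/
theorem local_est (f : Fibration K) {k : ℕ} (B : Set (MvPolynomial (Fin k) (𝓞 K))) {g : ℕ}
    (hg : 1 ≤ g) (Y : Base K) {v : HeightOneSpectrum (𝓞 K)} (hv : v ∉ Y.R) {z z' aB : ℝ}
    (hz : ValueAt (nagaoValue f B g) v z) (hz' : ValueAt (nagaoValue (pull f Y) B g) v z')
    (haB : ValueAt (traceValue B g) v aB) :
    |z' - z - aB * Y.a v / qq v| ≤ |z| * |Y.a v| / qq v + |aB - z| * Y.c / qq v := by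
  obtain ⟨κ, _, _, φ, hk, hc⟩ := exists_ext v 1 le_rfl
  rw [pow_one] at hc
  obtain ⟨A, a, h1, h2, h3⟩ := valueAt_self hz φ hk hc
  obtain ⟨A', a', h1', h2', h3'⟩ := valueAt_self hz' φ hk hc
  have h4 := valueAt_self haB φ hk hc
  have hr := f.one_le
  have hr' := (pull f Y).one_le
  have e1 : a = aB := isTrace_unique (by omega) h2 h4
  have e2 : a' = aB := isTrace_unique (by omega) h2' h4
  have e3 := average_unique (pull f Y) (by omega) h1' (average_pull f Y h1)
  set n : ℝ := ((pts Y φ).ncard : ℝ) with hn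
  have hcount : |n - (qq v ^ Y.m - qq v ^ (Y.m - 1) * Y.a v)| ≤ Y.c * qq v ^ (Y.m - 1) :=
    Y.count v hv κ φ hk hc
  have hq := qq_pos v
  have hcard : (Nat.card κ : ℝ) = qq v := by
    unfold qq
    exact_mod_cast hc
  rw [hcard] at e3
  have hpow : qq v ^ Y.m = qq v ^ (Y.m - 1) * qq v := by
    have := Y.one_le
    rw [← pow_succ]
    congr 1
    omega
  set E : ℝ := n - (qq v ^ Y.m - qq v ^ (Y.m - 1) * Y.a v) with hE
  have hp : (0 : ℝ) < qq v ^ (Y.m - 1) := pow_pos hq _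
  have hn' : n = qq v ^ (Y.m - 1) * qq v - qq v ^ (Y.m - 1) * Y.a v + E := by
    rw [hE, ← hpow]
    ring
  have hA : A = aB - z := by
    rw [h3, e1]
    ring
  have key : z' - z - aB * Y.a v / qq v =
      -(z * Y.a v / qq v) - (aB - z) * E / (qq v ^ (Y.m - 1) * qq v) := by
    rw [h3', e2, e3, hpow, hn', hA]
    have h8 := hq.ne'
    have h9 := hp.ne'
    have h10 : z = aB - A := by
      rw [hA]
      ring
    field_simp
    ring
  rw [key]
  refine (abs_sub _ _).trans (add_le_add ?_ ?_)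
  · rw [abs_neg, abs_div, abs_mul, abs_of_pos hq]
  · rw [abs_div, abs_mul, abs_of_pos (mul_pos hp hq), div_le_div_iff₀ (mul_pos hp hq) hq]
    have h11 : |aB - z| * |E| ≤ |aB - z| * (Y.c * qq v ^ (Y.m - 1)) :=
      mul_le_mul_of_nonneg_left hcount (abs_nonneg _)
    calc |aB - z| * |E| * qq v ≤ |aB - z| * (Y.c * qq v ^ (Y.m - 1)) * qq v :=
          mul_le_mul_of_nonneg_right h11 hq.le
      _ = |aB - z| * Y.c * (qq v ^ (Y.m - 1) * qq v) := by ring

/-- the normalised trace of a member of the family -/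
noncomputable def uf (Y : Base K) (v : HeightOneSpectrum (𝓞 K)) : ℝ :=
  open Classical in if v ∈ Y.R then 0 else Y.a v / √(qq v)

theorem abs_a (Y : Base K) {v : HeightOneSpectrum (𝓞 K)} (hv : v ∉ Y.R) :
    |Y.a v| ≤ Y.N * √(qq v) := by
  obtain ⟨γ, h1, h2⟩ := Y.weil v hv
  have h3 : ‖(Y.a v : ℂ)‖ ≤ Y.N * √(qq v) := by
    rw [h2]
    refine (norm_sum_le _ _).trans (le_of_eq ?_)
    rw [Finset.sum_congr rfl fun j _ => h1 j, Finset.sum_const, Finset.card_univ,
      Fintype.card_fin, nsmul_eq_mul]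
    rfl
  rwa [Complex.norm_real, Real.norm_eq_abs] at h3

theorem abs_uf (Y : Base K) (v : HeightOneSpectrum (𝓞 K)) : |uf Y v| ≤ Y.N := by
  unfold uf
  split_ifs with hv
  · rw [abs_zero]
    exact Nat.cast_nonneg _
  · rw [abs_div, abs_of_pos (sqrt_pos v), div_le_iff₀ (sqrt_pos v)]
    exact abs_a Y hv

theorem bd_uf (Y : Base K) : Bd (uf Y) := ⟨Y.N, abs_uf Y⟩

theorem uf_of (Y : Base K) {v : HeightOneSpectrum (𝓞 K)} (hv : v ∉ Y.R) :
    uf Y v = Y.a v / √(qq v) := by
  unfold uf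
  rw [if_neg hv]

theorem uf_mul (Y Y' : Base K) {v : HeightOneSpectrum (𝓞 K)} (hv : v ∉ Y.R) (hv' : v ∉ Y'.R) :
    uf Y v * uf Y' v = Y.a v * Y'.a v / (Ideal.absNorm v.asIdeal : ℝ) := by
  rw [uf_of Y hv, uf_of Y' hv', div_mul_div_comm, sqrt_mul_sqrt]
  rfl

theorem avg_lim (R : Finset (HeightOneSpectrum (𝓞 K))) {φ ψ : HeightOneSpectrum (𝓞 K) → ℝ}
    (hψ : Bd ψ) (h : ∀ v, v ∉ R → φ v = ψ v) :
    Tendsto (fun T => average R φ T - EN K T ψ) atTop (𝓝 0) := by
  refine (LA_EN R hψ h).congr fun T => ?_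
  rw [Pool.Agent.W353.FB.average_eq]

variable {β : Type} {Y : β → Base K} {e : β → ℝ}

theorem fam_diag (hfam : IsFamily Y e) (b : β) :
    Tendsto (fun T => EN K T fun v => uf (Y b) v * uf (Y b) v) atTop (𝓝 (e b)) := by
  have h1 := (hfam.1 b).2
  have h2 := avg_lim (Y b).R ((bd_uf (Y b)).mul (bd_uf (Y b)))
    (φ := fun v => (Y b).a v * (Y b).a v / (Ideal.absNorm v.asIdeal : ℝ)) fun v hv =>
      (uf_mul (Y b) (Y b) hv hv).symm
  have h3 := h1.sub h2
  rw [sub_zero] at h3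
  exact h3.congr fun T => sub_sub_cancel _ _

theorem fam_off (hfam : IsFamily Y e) {b b' : β} (hb : b ≠ b') :
    Tendsto (fun T => EN K T fun v => uf (Y b) v * uf (Y b') v) atTop (𝓝 0) := by
  classical
  have h1 := hfam.2 b b' hb
  have h2 := avg_lim ((Y b).R ∪ (Y b').R) ((bd_uf (Y b)).mul (bd_uf (Y b')))
    (φ := fun v => (Y b).a v * (Y b').a v / (Ideal.absNorm v.asIdeal : ℝ)) fun v hv => by
      rw [Finset.mem_union, not_or] at hv
      exact (uf_mul (Y b) (Y b') hv.1 hv.2).symm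
  have h1' : Tendsto (average ((Y b).R ∪ (Y b').R) fun v =>
      (Y b).a v * (Y b').a v / (Ideal.absNorm v.asIdeal : ℝ)) atTop (𝓝 0) := by
    convert h1 using 2
  have h3 := h1'.sub h2
  rw [sub_zero] at h3
  exact h3.congr fun T => sub_sub_cancel _ _

theorem EN_sub (n : ℕ) (f g : HeightOneSpectrum (𝓞 K) → ℝ) :
    EN K n (fun v => f v - g v) = EN K n f - EN K n g := by
  unfold EN
  rw [Finset.sum_sub_distrib, sub_div]

theorem EN_add (n : ℕ) (f g : HeightOneSpectrum (𝓞 K) → ℝ) :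
    EN K n (fun v => f v + g v) = EN K n f + EN K n g := by
  unfold EN
  rw [Finset.sum_add_distrib, add_div]

theorem EN_sum {ι : Type} (S : Finset ι) (c : ι → ℝ) (f : ι → HeightOneSpectrum (𝓞 K) → ℝ)
    (T : ℕ) : EN K T (fun v => ∑ b ∈ S, c b * f b v) = ∑ b ∈ S, c b * EN K T (f b) := by
  unfold EN
  rw [Finset.sum_comm, Finset.sum_div]
  refine Finset.sum_congr rfl fun b _ => ?_
  rw [← Finset.mul_sum, mul_div_assoc]

variable {f : Fibration K} {k g : ℕ} {B : Set (MvPolynomial (Fin k) (𝓞 K))} {n : β →₀ ℕ} {r : ℕ}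

/-- **The decomposition.** -/
theorem decomp0 (hg : 1 ≤ g) (hB : Complement B g Y n r)
    {R : Finset (HeightOneSpectrum (𝓞 K))} {z : HeightOneSpectrum (𝓞 K) → ℝ}
    (hz : IsSystem (nagaoValue f B g) R z) :
    ∃ w : HeightOneSpectrum (𝓞 K) → ℝ, (∀ v, |w v| ≤ |(r : ℝ)|) ∧
      ∀ (Y₀ : Base K) (R' : Finset (HeightOneSpectrum (𝓞 K))) (z' : HeightOneSpectrum (𝓞 K) → ℝ),
        IsSystem (nagaoValue (pull f Y₀) B g) R' z' →
        Tendsto (fun T => (average R' z' T - average R z T) -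
          (EN K T fun v => w v * uf Y₀ v) -
          ∑ b' ∈ n.support, (n b' : ℝ) * EN K T fun v => uf (Y b') v * uf Y₀ v) atTop (𝓝 0) := by
  classical
  set P : HeightOneSpectrum (𝓞 K) → ℝ → Prop := fun v a => ∃ γ : Fin r → ℂ,
    ValueAt (traceValue B g) v a ∧ (∀ j, ‖γ j‖ = √(Ideal.absNorm v.asIdeal : ℝ)) ∧
    (a : ℂ) = ∑ b ∈ n.support, ((n b : ℝ) * (Y b).a v : ℝ) + ∑ j, γ j with hP
  set aB : HeightOneSpectrum (𝓞 K) → ℝ := fun v => if h : ∃ a, P v a then h.choose else 0 with haB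
  have hgood : ∀ᶠ v in cofinite, P v (aB v) := hB.mono fun v hv => by
    have h : ∃ a, P v a := hv
    rw [haB]
    simp only
    rw [dif_pos h]
    exact h.choose_spec
  set w : HeightOneSpectrum (𝓞 K) → ℝ := fun v => if P v (aB v) then
    (aB v - ∑ b ∈ n.support, (n b : ℝ) * (Y b).a v) / √(qq v) else 0 with hw
  have hdiff : ∀ v, P v (aB v) →
      |aB v - ∑ b ∈ n.support, (n b : ℝ) * (Y b).a v| ≤ r * √(qq v) := by
    rintro v ⟨γ, -, h1, h2⟩
    have h3 : ((aB v - ∑ b ∈ n.support, (n b : ℝ) * (Y b).a v : ℝ) : ℂ) = ∑ j, γ j := by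
      push_cast
      rw [h2]
      push_cast
      ring
    have h4 : ‖((aB v - ∑ b ∈ n.support, (n b : ℝ) * (Y b).a v : ℝ) : ℂ)‖ ≤ r * √(qq v) := by
      rw [h3]
      refine (norm_sum_le _ _).trans (le_of_eq ?_)
      rw [Finset.sum_congr rfl fun j _ => h1 j, Finset.sum_const, Finset.card_univ,
        Fintype.card_fin, nsmul_eq_mul]
      rfl
    rwa [Complex.norm_real, Real.norm_eq_abs] at h4
  have hwb : ∀ v, |w v| ≤ |(r : ℝ)| := by
    intro v
    rw [hw]
    simp only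
    split_ifs with h
    · rw [abs_div, abs_of_pos (sqrt_pos v), div_le_iff₀ (sqrt_pos v),
        show |(r : ℝ)| = r from abs_of_nonneg (Nat.cast_nonneg r)]
      exact hdiff v h
    · rw [abs_zero]
      exact abs_nonneg _
  refine ⟨w, hwb, fun Y₀ R' z' hz' => ?_⟩
  obtain ⟨hz1, Cz, hz2⟩ := hz
  obtain ⟨hz1', Cz', hz2'⟩ := hz'
  -- the values, zero at the exceptional primes
  set z0 : HeightOneSpectrum (𝓞 K) → ℝ := fun v => if v ∈ R then 0 else z v with hz0
  set z0' : HeightOneSpectrum (𝓞 K) → ℝ := fun v => if v ∈ R' then 0 else z' v with hz0'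
  have bz0 : Bd z0 := ⟨|Cz|, fun v => by
    rw [hz0]
    simp only
    split_ifs with h
    · rw [abs_zero]
      exact abs_nonneg _
    · exact (hz2 v h).trans (le_abs_self _)⟩
  have bz0' : Bd z0' := ⟨|Cz'|, fun v => by
    rw [hz0']
    simp only
    split_ifs with h
    · rw [abs_zero]
      exact abs_nonneg _
    · exact (hz2' v h).trans (le_abs_self _)⟩
  have l1 := avg_lim R (φ := z) bz0 fun v hv => by
    rw [hz0]
    simp only
    rw [if_neg hv]
  have l2 := avg_lim R' (φ := z') bz0' fun v hv => by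
    rw [hz0']
    simp only
    rw [if_neg hv]
  -- the decomposition of the difference
  set cb : HeightOneSpectrum (𝓞 K) → ℝ := fun v =>
    ∑ b' ∈ n.support, (n b' : ℝ) * (uf (Y b') v * uf Y₀ v) with hcb
  have bcb : Bd cb := ⟨∑ b' ∈ n.support, (n b' : ℝ) * ((Y b').N * Y₀.N), fun v => by
    rw [hcb]
    simp only
    refine (Finset.abs_sum_le_sum_abs _ _).trans (Finset.sum_le_sum fun b' _ => ?_)
    rw [abs_mul, abs_of_nonneg (Nat.cast_nonneg _), abs_mul]
    exact mul_le_mul_of_nonneg_left (mul_le_mul (abs_uf _ _) (abs_uf _ _) (abs_nonneg _)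
      (Nat.cast_nonneg _)) (Nat.cast_nonneg _)⟩
  have bwu : Bd fun v => w v * uf Y₀ v := Bd.mul (f := w) ⟨_, hwb⟩ (bd_uf Y₀)
  set D : HeightOneSpectrum (𝓞 K) → ℝ := fun v =>
    ((z0' v + -(z0 v)) + -(w v * uf Y₀ v)) + -(cb v) with hD
  have bD : Bd D := ((bz0'.add bz0.neg).add bwu.neg).add bcb.neg
  set M : ℝ := (∑ b' ∈ n.support, (n b' : ℝ) * (Y b').N) + r with hM
  have hM0 : 0 ≤ M := by positivity
  set D₀ : ℝ := |Cz| * Y₀.N + (M + |Cz|) * |Y₀.c| with hD₀
  have hD₀0 : 0 ≤ D₀ := by positivity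
  have hDs : ∀ᶠ v in cofinite, |D v| ≤ D₀ / √(qq v) := by
    have hcof : ∀ S : Finset (HeightOneSpectrum (𝓞 K)), ∀ᶠ v in cofinite, v ∉ S := fun S => by
      rw [Filter.eventually_cofinite]
      refine S.finite_toSet.subset fun v hv => ?_
      by_contra h
      exact hv h
    have hall : ∀ᶠ v in cofinite, ∀ b' ∈ n.support, v ∉ (Y b').R := by
      rw [Filter.eventually_all_finset]
      exact fun b' _ => hcof _
    filter_upwards [hgood, hcof R, hcof R', hcof Y₀.R, hall] with v g1 g2 g3 g4 g5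
    have hq := qq_pos v
    have hs := sqrt_pos v
    have hss := sqrt_mul_sqrt v
    -- the local estimate
    obtain ⟨γ, hval, -, -⟩ := id g1
    have h1 := local_est f B hg Y₀ g4 (hz1 v g2) (hz1' v g3) hval
    have h2 : D v = z' v - z v - aB v * Y₀.a v / qq v := by
      rw [hD]
      simp only
      rw [hz0, hz0', hw, hcb]
      simp only
      rw [if_neg g2, if_neg g3, if_pos g1, uf_of Y₀ g4]
      have h3 : ∑ b' ∈ n.support, (n b' : ℝ) * (uf (Y b') v * (Y₀.a v / √(qq v))) =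
          (∑ b' ∈ n.support, (n b' : ℝ) * (Y b').a v) * (Y₀.a v / qq v) := by
        rw [Finset.sum_mul]
        refine Finset.sum_congr rfl fun b' hb' => ?_
        rw [uf_of (Y b') (g5 b' hb'), div_mul_div_comm, hss]
        ring
      rw [h3, div_mul_div_comm, hss]
      ring
    rw [h2]
    refine h1.trans ?_
    have h4 : |z v| ≤ |Cz| := (hz2 v g2).trans (le_abs_self _)
    have h5 := abs_a Y₀ g4
    have h6 : |aB v| ≤ M * √(qq v) := by
      have h7 := hdiff v g1
      have h8 : |∑ b' ∈ n.support, (n b' : ℝ) * (Y b').a v| ≤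
          (∑ b' ∈ n.support, (n b' : ℝ) * (Y b').N) * √(qq v) := by
        rw [Finset.sum_mul]
        refine (Finset.abs_sum_le_sum_abs _ _).trans (Finset.sum_le_sum fun b' hb' => ?_)
        rw [abs_mul, abs_of_nonneg (Nat.cast_nonneg _), mul_assoc]
        exact mul_le_mul_of_nonneg_left (abs_a (Y b') (g5 b' hb')) (Nat.cast_nonneg _)
      have h9 : aB v = (aB v - ∑ b' ∈ n.support, (n b' : ℝ) * (Y b').a v) +
          ∑ b' ∈ n.support, (n b' : ℝ) * (Y b').a v := by ring
      rw [h9]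
      refine (abs_add_le _ _).trans ?_
      rw [hM, add_mul]
      linarith
    have h10 : |aB v - z v| ≤ (M + |Cz|) * √(qq v) := by
      refine (abs_sub _ _).trans ?_
      have h11 : |Cz| * 1 ≤ |Cz| * √(qq v) :=
        mul_le_mul_of_nonneg_left (one_le_sqrt v) (abs_nonneg _)
      rw [add_mul]
      linarith
    have h12 : |z v| * |Y₀.a v| / qq v ≤ |Cz| * Y₀.N / √(qq v) := by
      rw [div_le_div_iff₀ hq hs]
      calc |z v| * |Y₀.a v| * √(qq v) ≤ |Cz| * (Y₀.N * √(qq v)) * √(qq v) := by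
            refine mul_le_mul_of_nonneg_right ?_ hs.le
            exact mul_le_mul h4 h5 (abs_nonneg _) (abs_nonneg _)
        _ = |Cz| * Y₀.N * (√(qq v) * √(qq v)) := by ring
        _ = |Cz| * Y₀.N * qq v := by rw [hss]
    have h13 : |aB v - z v| * Y₀.c / qq v ≤ (M + |Cz|) * |Y₀.c| / √(qq v) := by
      rw [div_le_div_iff₀ hq hs]
      calc |aB v - z v| * Y₀.c * √(qq v) ≤
            (M + |Cz|) * √(qq v) * |Y₀.c| * √(qq v) := by
            refine mul_le_mul_of_nonneg_right ?_ hs.le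
            calc |aB v - z v| * Y₀.c ≤ |aB v - z v| * |Y₀.c| :=
                  mul_le_mul_of_nonneg_left (le_abs_self _) (abs_nonneg _)
              _ ≤ _ := mul_le_mul_of_nonneg_right h10 (abs_nonneg _)
        _ = (M + |Cz|) * |Y₀.c| * (√(qq v) * √(qq v)) := by ring
        _ = (M + |Cz|) * |Y₀.c| * qq v := by rw [hss]
    rw [hD₀, add_div]
    exact add_le_add h12 h13
  have l3 := (hsSmall (mnN K) bD fun η hη => by
    filter_upwards [hDs, small_of (K := K) hD₀0 hη] with v g1 g2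
    exact g1.trans g2).2
  have l5 := (l2.sub l1).add l3
  simp only [sub_self, add_zero] at l5
  refine l5.congr fun T => ?_
  have e1 : EN K T D = EN K T z0' - EN K T z0 - (EN K T fun v => w v * uf Y₀ v) -
      EN K T cb := by
    have e2 : D = fun v => z0' v - z0 v - w v * uf Y₀ v - cb v := by
      funext v
      rw [hD]
      ring
    rw [e2, EN_sub T (fun v => z0' v - z0 v - w v * uf Y₀ v) cb,
      EN_sub T (fun v => z0' v - z0 v) fun v => w v * uf Y₀ v, EN_sub T z0' z0]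
  have e3 : EN K T cb = ∑ b' ∈ n.support, (n b' : ℝ) * EN K T fun v =>
      uf (Y b') v * uf Y₀ v := by
    rw [hcb, EN_sum n.support (fun b' => (n b' : ℝ)) (fun b' v => uf (Y b') v * uf Y₀ v) T]
  rw [e1, e3]
  ring

/-- the decomposition for the members of the family -/
theorem decomp (hg : 1 ≤ g) (hfam : IsFamily Y e) (hB : Complement B g Y n r)
    {R : Finset (HeightOneSpectrum (𝓞 K))} {z : HeightOneSpectrum (𝓞 K) → ℝ}
    (hz : IsSystem (nagaoValue f B g) R z) :
    ∃ w : HeightOneSpectrum (𝓞 K) → ℝ, (∀ v, |w v| ≤ |(r : ℝ)|) ∧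
      ∀ (b : β) (R' : Finset (HeightOneSpectrum (𝓞 K))) (z' : HeightOneSpectrum (𝓞 K) → ℝ),
        IsSystem (nagaoValue (pull f (Y b)) B g) R' z' →
        Tendsto (fun T => (average R' z' T - average R z T - n b * e b) -
          EN K T fun v => w v * uf (Y b) v) atTop (𝓝 0) := by
  classical
  obtain ⟨w, hw, h⟩ := decomp0 hg hB hz
  refine ⟨w, hw, fun b R' z' hz' => ?_⟩
  have l4 : Tendsto (fun T => ∑ b' ∈ n.support, (n b' : ℝ) * EN K T fun v =>
      uf (Y b') v * uf (Y b) v) atTop (𝓝 (n b * e b)) := by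
    have h4 : Tendsto (fun T => ∑ b' ∈ n.support, (n b' : ℝ) * EN K T fun v =>
        uf (Y b') v * uf (Y b) v) atTop
        (𝓝 (∑ b' ∈ n.support, (n b' : ℝ) * (if b' = b then e b else 0))) := by
      refine tendsto_finsetSum _ fun b' _ => ?_
      by_cases hb : b' = b
      · subst hb
        rw [if_pos rfl]
        exact (fam_diag hfam b').const_mul _
      · rw [if_neg hb]
        exact (fam_off hfam hb).const_mul _
    have h5 : ∑ b' ∈ n.support, (n b' : ℝ) * (if b' = b then e b else 0) = n b * e b := by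
      by_cases hb : b ∈ n.support
      · rw [Finset.sum_eq_single_of_mem b hb]
        · rw [if_pos rfl]
        · intro b' _ hb'
          rw [if_neg hb', mul_zero]
      · rw [Finset.sum_eq_zero]
        · have : n b = 0 := by simpa using hb
          rw [this, Nat.cast_zero, zero_mul]
        · intro b' hb'
          have : b' ≠ b := fun h => hb (h ▸ hb')
          rw [if_neg this, mul_zero]
    rw [h5] at h4
    exact h4
  have l5 := (h (Y b) R' z' hz').add (l4.sub_const (n b * e b))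
  simp only [sub_self, add_zero] at l5
  refine l5.congr fun T => ?_
  ring

/-- base changes if the Chow trace is zero -/
theorem trace_zero (hg : 1 ≤ g) (hB : Complement B g Y 0 0)
    {R : Finset (HeightOneSpectrum (𝓞 K))} {z : HeightOneSpectrum (𝓞 K) → ℝ}
    (hz : IsSystem (nagaoValue f B g) R z) (Y₀ : Base K)
    {R' : Finset (HeightOneSpectrum (𝓞 K))} {z' : HeightOneSpectrum (𝓞 K) → ℝ}
    (hz' : IsSystem (nagaoValue (pull f Y₀) B g) R' z') :
    Tendsto (fun T => average R' z' T - average R z T) atTop (𝓝 0) := by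
  obtain ⟨w, hw, h⟩ := decomp0 hg hB hz
  have hw0 : ∀ v, w v = 0 := fun v => by
    have := hw v
    rw [Nat.cast_zero, abs_zero] at this
    exact abs_nonpos_iff.1 this
  refine (h Y₀ R' z' hz').congr fun T => ?_
  have e1 : (EN K T fun v => w v * uf Y₀ v) = 0 := by
    unfold EN
    rw [Finset.sum_eq_zero fun v _ => by rw [hw0, zero_mul], zero_div]
  rw [e1, sub_zero]
  simp

/-- **Bessel's inequality for the base changes.** -/
theorem main (hg : 1 ≤ g) (hfam : IsFamily Y e) (hB : Complement B g Y n r)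
    {R : Finset (HeightOneSpectrum (𝓞 K))} {z : HeightOneSpectrum (𝓞 K) → ℝ}
    (hz : IsSystem (nagaoValue f B g) R z) {R' : β → Finset (HeightOneSpectrum (𝓞 K))}
    {z' : β → HeightOneSpectrum (𝓞 K) → ℝ}
    (hz' : ∀ b, IsSystem (nagaoValue (pull f (Y b)) B g) (R' b) (z' b))
    (S : Finset β) {η : ℝ} (hη : 0 < η) :
    ∀ᶠ T : ℕ in atTop, ∑ b ∈ S, (average (R' b) (z' b) T - average R z T - n b * e b) ^ 2 / e b ≤
      (r : ℝ) ^ 2 + η := by
  obtain ⟨w, hw, hx⟩ := decomp hg hfam hB hz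
  exact bessel_seq (fun b => bd_uf (Y b)) (fun b => (hfam.1 b).1) (fam_diag hfam)
    (fun b b' hb => fam_off hfam hb) hw (fun b => hx b (R' b) (z' b) (hz' b)) S hη

end

end Pool.Agent.R461.BC
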